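import Mathlib

/-!
# The dissociativity dimension of large subsets of the cyclic group of order 2^k + 1
-/

namespace Pool.Agent.Results.MP_fd91d0_co.FermatModuli

open Finset

/-- A finite subset of an abelian group is dissociated if it has no nontrivial relation with
coefficients in `{-1, 0, 1}`. -/
def Dissociated {G : Type*} [AddCommGroup G] (B : Finset G) : Prop :=
  ∀ c : G → ℤ, (∀ b ∈ B, c b = -1 ∨ c b = 0 ∨ c b = 1) → ∑ b ∈ B, c b • b = 0 →
    ∀ b ∈ B, c b = 0

open Classical in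
/-- The dissociativity dimension of a finite set. -/
noncomputable def dimSet {G : Type*} [AddCommGroup G] (A : Finset G) : ℕ :=
  (A.powerset.filter Dissociated).sup Finset.card

/-- The least dissociativity dimension of an `m`-element subset of `G`. -/
noncomputable def dimGroup (G : Type*) [AddCommGroup G] (m : ℕ) : ℕ :=
  sInf {k | ∃ A : Finset G, A.card = m ∧ dimSet A = k}

/-! ### Binary digits -/

theorem digits (k : ℕ) (c : ℕ → ℤ) (hc : ∀ i < k, |c i| ≤ 1)
    (h : ∑ i ∈ range k, c i * 2 ^ i = 0) : ∀ i < k, c i = 0 := by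
  induction k generalizing c with
  | zero => intro i hi; omega
  | succ k ih =>
    rw [Finset.sum_range_succ'] at h
    have h1 : ∑ i ∈ range k, c (i + 1) * 2 ^ (i + 1) = 2 * ∑ i ∈ range k, c (i + 1) * 2 ^ i := by
      rw [Finset.mul_sum]
      apply Finset.sum_congr rfl
      intro i _
      ring
    rw [h1] at h
    simp only [pow_zero, mul_one] at h
    have h0 : c 0 = 0 := by
      have := abs_le.1 (hc 0 (by omega))
      omega
    have h2 : ∑ i ∈ range k, c (i + 1) * 2 ^ i = 0 := by omega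
    have h3 := ih (fun i => c (i + 1)) (fun i hi => hc (i + 1) (by omega)) h2
    intro i hi
    rcases Nat.eq_zero_or_pos i with h4 | h4
    · rw [h4]; exact h0
    · obtain ⟨j, rfl⟩ : ∃ j, i = j + 1 := ⟨i - 1, by omega⟩
      exact h3 j (by omega)

theorem abs_sum_lt (k : ℕ) (c : ℕ → ℤ) (hc : ∀ i < k, |c i| ≤ 1) :
    |∑ i ∈ range k, c i * 2 ^ i| < 2 ^ k := by
  have h1 : |∑ i ∈ range k, c i * 2 ^ i| ≤ ∑ i ∈ range k, (2 : ℤ) ^ i := by
    refine (Finset.abs_sum_le_sum_abs _ _).trans (Finset.sum_le_sum ?_)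
    intro i hi
    rw [abs_mul, abs_of_pos (by positivity : (0 : ℤ) < 2 ^ i)]
    have := hc i (Finset.mem_range.1 hi)
    nlinarith [show (0 : ℤ) < 2 ^ i by positivity]
  have h2 : ∀ k : ℕ, ∑ i ∈ range k, (2 : ℤ) ^ i = 2 ^ k - 1 := by
    intro k
    induction k with
    | zero => simp
    | succ k ih => rw [Finset.sum_range_succ, ih, pow_succ]; ring
  rw [h2] at h1
  linarith

variable {k : ℕ}

theorem core (c : ℕ → ℤ) (hc : ∀ i < k, |c i| ≤ 1)
    (h : ∑ i ∈ range k, ((c i : ZMod (2 ^ k + 1)) * 2 ^ i) = 0) : ∀ i < k, c i = 0 := by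
  apply digits k c hc
  have h1 : ((∑ i ∈ range k, c i * 2 ^ i : ℤ) : ZMod (2 ^ k + 1)) = 0 := by
    push_cast
    exact h
  rw [ZMod.intCast_zmod_eq_zero_iff_dvd] at h1
  have h2 := abs_sum_lt k c hc
  apply Int.eq_zero_of_abs_lt_dvd h1
  push_cast
  linarith

/-- Signed geometric progressions with ratio two are dissociated modulo `2 ^ k + 1`. -/
theorem gp (u v : ZMod (2 ^ k + 1)) (huv : v * u = 1) (s : ℕ → ℤ)
    (hs : ∀ i < k, s i = 1 ∨ s i = -1) :
    Set.InjOn (fun i : ℕ => (s i : ZMod (2 ^ k + 1)) * (u * 2 ^ i)) (range k : Set ℕ) ∧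
    Dissociated ((range k).image fun i : ℕ => (s i : ZMod (2 ^ k + 1)) * (u * 2 ^ i)) := by
  have hcore : ∀ c : ℕ → ℤ, (∀ i < k, |c i| ≤ 1) →
      ∑ i ∈ range k, (c i : ZMod (2 ^ k + 1)) * ((s i : ZMod (2 ^ k + 1)) * (u * 2 ^ i)) = 0 →
      ∀ i < k, c i = 0 := by
    intro c hc h
    have h1 : ∑ i ∈ range k, (((c i * s i : ℤ) : ZMod (2 ^ k + 1)) * 2 ^ i) = 0 := by
      calc ∑ i ∈ range k, (((c i * s i : ℤ) : ZMod (2 ^ k + 1)) * 2 ^ i)
          = ∑ i ∈ range k, v * ((c i : ZMod (2 ^ k + 1)) *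
              ((s i : ZMod (2 ^ k + 1)) * (u * 2 ^ i))) := by
            apply Finset.sum_congr rfl
            intro i _
            push_cast
            calc (c i : ZMod (2 ^ k + 1)) * (s i) * 2 ^ i
                = (v * u) * ((c i : ZMod (2 ^ k + 1)) * (s i) * 2 ^ i) := by rw [huv, one_mul]
              _ = _ := by ring
        _ = 0 := by rw [← Finset.mul_sum, h, mul_zero]
    have h2 := core (fun i => c i * s i) (fun i hi => by
      rw [abs_mul]
      rcases hs i hi with h3 | h3 <;> rw [h3] <;> simpa using hc i hi) h1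
    intro i hi
    have h3 := h2 i hi
    rcases hs i hi with h4 | h4 <;> simp only [h4] at h3 <;> omega
  have hinj : Set.InjOn (fun i : ℕ => (s i : ZMod (2 ^ k + 1)) * (u * 2 ^ i))
      (range k : Set ℕ) := by
    intro i hi j hj hij
    by_contra hne
    simp only [Finset.coe_range, Set.mem_Iio] at hi hj
    simp only at hij
    set c : ℕ → ℤ := fun l => if l = i then 1 else if l = j then -1 else 0 with hc
    have h1 := hcore c (fun l _ => by simp only [hc]; split_ifs <;> simp) (by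
      have h2 : ∀ l ∈ range k, (c l : ZMod (2 ^ k + 1)) *
          ((s l : ZMod (2 ^ k + 1)) * (u * 2 ^ l)) =
          (if l = i then ((s l : ZMod (2 ^ k + 1)) * (u * 2 ^ l)) else 0) -
          (if l = j then ((s l : ZMod (2 ^ k + 1)) * (u * 2 ^ l)) else 0) := by
        intro l _
        simp only [hc]
        by_cases h3 : l = i
        · have h4 : l ≠ j := fun h => hne (h3.symm.trans h)
          simp [h3, hne]
        · by_cases h4 : l = j
          · simp [h4, Ne.symm hne]
          · simp [h3, h4]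
      rw [Finset.sum_congr rfl h2, Finset.sum_sub_distrib, Finset.sum_ite_eq',
        Finset.sum_ite_eq', if_pos (Finset.mem_range.2 hi), if_pos (Finset.mem_range.2 hj),
        hij, sub_self]) i hi
    simp [hc] at h1
  refine ⟨hinj, ?_⟩
  intro c hc hsum b hb
  rw [Finset.sum_image hinj] at hsum
  rw [Finset.mem_image] at hb
  obtain ⟨i, hi, rfl⟩ := hb
  refine hcore (fun i => c ((s i : ZMod (2 ^ k + 1)) * (u * 2 ^ i))) ?_ ?_ i
    (Finset.mem_range.1 hi)
  · intro j hj
    rcases hc _ (Finset.mem_image_of_mem _ (Finset.mem_range.2 hj)) with h | h | h <;>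
      simp only [h] <;> simp
  · rw [← hsum]
    apply Finset.sum_congr rfl
    intro j _
    rw [zsmul_eq_mul]

theorem le_dimSet {G : Type*} [AddCommGroup G] {A B : Finset G} (h : B ⊆ A)
    (hB : Dissociated B) : B.card ≤ dimSet A := by
  classical
  unfold dimSet
  exact Finset.le_sup (f := Finset.card) (by simp [h, hB])

/-- The number of elements of a dissociated set is at most the binary logarithm of the order. -/
theorem two_pow_le {G : Type*} [AddCommGroup G] [Fintype G] {B : Finset G}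
    (hB : Dissociated B) : 2 ^ B.card ≤ Fintype.card G := by
  classical
  rw [← Finset.card_powerset, ← Finset.card_univ]
  apply Finset.card_le_card_of_injOn (fun S => ∑ b ∈ S, b) (fun _ _ => Finset.mem_coe.2 (Finset.mem_univ _))
  intro S hS T hT hST
  simp only [Finset.coe_powerset, Set.mem_preimage, Set.mem_powerset_iff, Finset.coe_subset] at hS hT
  simp only at hST
  have h1 := hB (fun b => (if b ∈ S then 1 else 0) - (if b ∈ T then 1 else 0))
    (fun b _ => by split_ifs <;> simp) (by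
      simp only [sub_smul]
      rw [Finset.sum_sub_distrib]
      have h2 : ∀ U ⊆ B, ∑ b ∈ B, (if b ∈ U then (1 : ℤ) else 0) • b = ∑ b ∈ U, b := by
        intro U hU
        have h3 : ∀ b ∈ B, (if b ∈ U then (1 : ℤ) else 0) • b = if b ∈ U then b else 0 := by
          intro b _
          split_ifs <;> simp
        rw [Finset.sum_congr rfl h3, ← Finset.sum_filter, Finset.filter_mem_eq_inter,
          Finset.inter_eq_right.2 hU]
      rw [h2 S hS, h2 T hT, hST, sub_self])
  ext b
  by_cases hb : b ∈ B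
  · have h2 := h1 b hb
    by_cases h3 : b ∈ S <;> by_cases h4 : b ∈ T <;> simp [h3, h4] at h2 ⊢
  · exact ⟨fun h => absurd (hS h) hb, fun h => absurd (hT h) hb⟩

/-- The multiplier of the second geometric progression is not a signed power of two. -/
theorem not_power (hk : 4 ≤ k) (u : ℤ) (hu : u = 3 ∨ u = 5) (i j : ℕ) (hi : i < k) (hj : j < k)
    (ε : ℤ) (hε : ε = 1 ∨ ε = -1) :
    ¬ (((2 : ℤ) ^ k + 1) ∣ u * 2 ^ j - ε * 2 ^ i) := by
  intro hdvd
  have hcop : ∀ t : ℕ, IsCoprime ((2 : ℤ) ^ k + 1) (2 ^ t) := by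
    intro t
    apply IsCoprime.pow_right
    refine ⟨1, -2 ^ (k - 1), ?_⟩
    have : (2 : ℤ) ^ k = 2 ^ (k - 1) * 2 := by rw [← pow_succ]; congr 1; omega
    rw [this]; ring
  -- reduce to the exponent difference
  have main : ∀ (ε' : ℤ), (ε' = 1 ∨ ε' = -1) → ∀ l < k, ¬ (((2 : ℤ) ^ k + 1) ∣ u - ε' * 2 ^ l) := by
    intro ε' hε' l hl h
    have hpos : (0 : ℤ) < 2 ^ l := by positivity
    have hle : (2 : ℤ) ^ l * 2 ≤ 2 ^ k := by
      rw [← pow_succ]
      exact pow_le_pow_right₀ (by norm_num) (by omega)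
    have hk16 : (2 : ℤ) ^ 4 ≤ 2 ^ k := pow_le_pow_right₀ (by norm_num) hk
    have hne : u - ε' * 2 ^ l ≠ 0 := by
      intro h0
      rcases Nat.eq_zero_or_pos l with hl0 | hl0
      · subst hl0
        rcases hu with rfl | rfl <;> rcases hε' with rfl | rfl <;> norm_num at h0
      · obtain ⟨l', rfl⟩ : ∃ l', l = l' + 1 := ⟨l - 1, by omega⟩
        rw [pow_succ] at h0
        have h1 : u = 2 * (ε' * 2 ^ l') := by linarith
        rcases hu with rfl | rfl <;> omega
    have h2 : |u - ε' * 2 ^ l| < 2 ^ k + 1 := by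
      rw [abs_lt]
      rcases hu with rfl | rfl <;> rcases hε' with rfl | rfl <;> constructor <;> linarith
    exact hne (Int.eq_zero_of_abs_lt_dvd h h2)
  rcases le_or_gt j i with hij | hij
  · have h1 : u * 2 ^ j - ε * 2 ^ i = 2 ^ j * (u - ε * 2 ^ (i - j)) := by
      have : (2 : ℤ) ^ i = 2 ^ j * 2 ^ (i - j) := by rw [← pow_add]; congr 1; omega
      rw [this]; ring
    rw [h1] at hdvd
    exact main ε hε (i - j) (by omega) ((hcop j).dvd_of_dvd_mul_left hdvd)
  · have h1 : u * 2 ^ j - ε * 2 ^ i = 2 ^ i * (u * 2 ^ (j - i) - ε) := by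
      have : (2 : ℤ) ^ j = 2 ^ i * 2 ^ (j - i) := by rw [← pow_add]; congr 1; omega
      rw [this]; ring
    rw [h1] at hdvd
    have h2 := (hcop i).dvd_of_dvd_mul_left hdvd
    have h3 : ((2 : ℤ) ^ k + 1) ∣ u - (-ε) * 2 ^ (k - (j - i)) := by
      have h4 : u - (-ε) * 2 ^ (k - (j - i)) =
          u * (2 ^ k + 1) - 2 ^ (k - (j - i)) * (u * 2 ^ (j - i) - ε) := by
        have : (2 : ℤ) ^ k = 2 ^ (k - (j - i)) * 2 ^ (j - i) := by
          rw [← pow_add]; congr 1; omega
        rw [this]; ring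
      rw [h4]
      exact (Dvd.intro_left _ rfl).sub (h2.mul_left _)
    exact main (-ε) (by rcases hε with rfl | rfl <;> simp) _ (by omega) h3

theorem exists_unit (hk : 4 ≤ k) : ∃ u : ℤ, (u = 3 ∨ u = 5) ∧
    ∃ v : ZMod (2 ^ k + 1), v * (u : ZMod (2 ^ k + 1)) = 1 := by
  have aux : ∀ u : ℕ, u.Coprime (2 ^ k + 1) →
      ∃ v : ZMod (2 ^ k + 1), v * ((u : ℤ) : ZMod (2 ^ k + 1)) = 1 := by
    intro u hu
    refine ⟨(u : ZMod (2 ^ k + 1))⁻¹, ?_⟩
    rw [mul_comm]
    push_cast
    exact ZMod.coe_mul_inv_eq_one u hu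
  rcases Nat.even_or_odd k with hev | hodd
  · refine ⟨3, Or.inl rfl, ?_⟩
    have := aux 3 (by
      rw [Nat.Prime.coprime_iff_not_dvd Nat.prime_three]
      obtain ⟨j, rfl⟩ := hev
      intro h
      have h1 : ∀ j : ℕ, 2 ^ (j + j) % 3 = 1 := by
        intro j
        induction j with
        | zero => rfl
        | succ j ih =>
          have : 2 ^ (j + 1 + (j + 1)) = 2 ^ (j + j) * 4 := by ring
          omega
      have h2 := h1 j
      generalize 2 ^ (j + j) = X at h2 h
      omega)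
    exact_mod_cast this
  · refine ⟨5, Or.inr rfl, ?_⟩
    have := aux 5 (by
      rw [Nat.Prime.coprime_iff_not_dvd Nat.prime_five]
      obtain ⟨j, rfl⟩ := hodd
      intro h
      have h1 : ∀ j : ℕ, 2 ^ (2 * j + 1) % 5 = 2 ∨ 2 ^ (2 * j + 1) % 5 = 3 := by
        intro j
        induction j with
        | zero => left; rfl
        | succ j ih =>
          have : 2 ^ (2 * (j + 1) + 1) = 2 ^ (2 * j + 1) * 4 := by ring
          omega
      have h2 := h1 j
      generalize 2 ^ (2 * j + 1) = X at h2 h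
      omega)
    exact_mod_cast this

/-- Every subset missing at most three elements contains a dissociated set of size `k`. -/
theorem lower (hk : 4 ≤ k) (A : Finset (ZMod (2 ^ k + 1))) (hA : 2 ^ k ≤ A.card + 2) :
    k ≤ dimSet A := by
  classical
  obtain ⟨u, hu, v, hv⟩ := exists_unit hk
  -- a good progression inside `A` gives the bound
  have good : ∀ w v' : ZMod (2 ^ k + 1), v' * w = 1 →
      (∀ i < k, w * 2 ^ i ∈ A ∨ -(w * 2 ^ i) ∈ A) → k ≤ dimSet A := by
    intro w v' hw hgood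
    set s : ℕ → ℤ := fun i => if w * 2 ^ i ∈ A then 1 else -1 with hs
    obtain ⟨hinj, hdis⟩ := gp w v' hw s (fun i _ => by
      simp only [hs]; split_ifs <;> simp)
    have h1 : ((range k).image fun i : ℕ => (s i : ZMod (2 ^ k + 1)) * (w * 2 ^ i)).card = k := by
      rw [Finset.card_image_of_injOn hinj, Finset.card_range]
    calc k = _ := h1.symm
      _ ≤ dimSet A := by
        apply le_dimSet _ hdis
        intro x hx
        rw [Finset.mem_image] at hx
        obtain ⟨i, hi, rfl⟩ := hx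
        rw [Finset.mem_range] at hi
        simp only [hs]
        split_ifs with h2
        · simpa using h2
        · simpa using (hgood i hi).resolve_left h2
  by_cases h1 : ∀ i < k, (1 : ZMod (2 ^ k + 1)) * 2 ^ i ∈ A ∨ -((1 : ZMod (2 ^ k + 1)) * 2 ^ i) ∈ A
  · exact good 1 1 (by ring) h1
  by_cases h2 : ∀ i < k, (u : ZMod (2 ^ k + 1)) * 2 ^ i ∈ A ∨ -((u : ZMod (2 ^ k + 1)) * 2 ^ i) ∈ A
  · exact good u v hv h2
  exfalso
  push Not at h1 h2
  obtain ⟨i, hi, hi1, hi2⟩ := h1
  obtain ⟨j, hj, hj1, hj2⟩ := h2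
  rw [one_mul] at hi1 hi2
  -- four missing elements
  have hodd : ∀ x y : ZMod (2 ^ k + 1), y * x = 1 → x ≠ -x := by
    intro x y hxy h
    have h3 : (2 : ZMod (2 ^ k + 1)) * x = 0 := by
      have : x + x = 0 := by nth_rewrite 1 [h]; ring
      rw [two_mul]; exact this
    have h4 : (2 : ZMod (2 ^ k + 1)) = 0 := by
      calc (2 : ZMod (2 ^ k + 1)) = 2 * (y * x) := by rw [hxy]; ring
        _ = y * (2 * x) := by ring
        _ = 0 := by rw [h3, mul_zero]
    have h5 : ((2 : ℕ) : ZMod (2 ^ k + 1)) = 0 := by exact_mod_cast h4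
    rw [ZMod.natCast_eq_zero_iff] at h5
    have h6 := Nat.le_of_dvd (by norm_num) h5
    have h7 : 2 ^ 4 ≤ 2 ^ k := Nat.pow_le_pow_right (by norm_num) hk
    omega
  have h2k : (2 : ZMod (2 ^ k + 1)) ^ k = -1 := by
    have : ((2 ^ k + 1 : ℕ) : ZMod (2 ^ k + 1)) = 0 := ZMod.natCast_self _
    push_cast at this
    linear_combination this
  have hinv : ∀ l ≤ k, (-(2 : ZMod (2 ^ k + 1)) ^ (k - l)) * 2 ^ l = 1 := by
    intro l hl
    have : (2 : ZMod (2 ^ k + 1)) ^ (k - l) * 2 ^ l = 2 ^ k := by rw [← pow_add]; congr 1; omega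
    calc (-(2 : ZMod (2 ^ k + 1)) ^ (k - l)) * 2 ^ l = -(2 ^ (k - l) * 2 ^ l) := by ring
      _ = 1 := by rw [this, h2k]; ring
  have hne : ∀ ε : ℤ, (ε = 1 ∨ ε = -1) → (u : ZMod (2 ^ k + 1)) * 2 ^ j ≠ (ε : ZMod (2 ^ k + 1)) * 2 ^ i := by
    intro ε hε h
    apply not_power hk u hu i j hi hj ε hε
    have h3 : ((u * 2 ^ j - ε * 2 ^ i : ℤ) : ZMod (2 ^ k + 1)) = 0 := by
      push_cast
      rw [h, sub_self]
    rw [ZMod.intCast_zmod_eq_zero_iff_dvd] at h3
    exact_mod_cast h3
  have hne1 := hne 1 (Or.inl rfl)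
  have hne2 := hne (-1) (Or.inr rfl)
  push_cast at hne1 hne2
  rw [one_mul] at hne1
  have e1 : (2 : ZMod (2 ^ k + 1)) ^ i ≠ -(2 ^ i) := hodd _ _ (hinv i hi.le)
  have e2 : (u : ZMod (2 ^ k + 1)) * 2 ^ j ≠ -((u : ZMod (2 ^ k + 1)) * 2 ^ j) :=
    hodd _ (-(2 : ZMod (2 ^ k + 1)) ^ (k - j) * v) (by
      calc -(2 : ZMod (2 ^ k + 1)) ^ (k - j) * v * ((u : ZMod (2 ^ k + 1)) * 2 ^ j)
          = (v * u) * ((-(2 : ZMod (2 ^ k + 1)) ^ (k - j)) * 2 ^ j) := by ring
        _ = 1 := by rw [hv, hinv j hj.le]; ring)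
  have hcard : ({(2 : ZMod (2 ^ k + 1)) ^ i, -(2 ^ i), (u : ZMod (2 ^ k + 1)) * 2 ^ j,
      -((u : ZMod (2 ^ k + 1)) * 2 ^ j)} : Finset (ZMod (2 ^ k + 1))).card = 4 := by
    rw [Finset.card_insert_of_notMem, Finset.card_insert_of_notMem,
      Finset.card_insert_of_notMem, Finset.card_singleton]
    · rw [Finset.mem_singleton]; exact e2
    · rw [Finset.mem_insert, Finset.mem_singleton]
      rintro (h | h)
      · exact hne2 (by rw [← h]; ring)
      · exact hne1 (by linear_combination h)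
    · rw [Finset.mem_insert, Finset.mem_insert, Finset.mem_singleton]
      rintro (h | h | h)
      · exact e1 h
      · exact hne1 h.symm
      · exact hne2 (by rw [h]; ring)
  have hdisj : Disjoint A ({(2 : ZMod (2 ^ k + 1)) ^ i, -(2 ^ i), (u : ZMod (2 ^ k + 1)) * 2 ^ j,
      -((u : ZMod (2 ^ k + 1)) * 2 ^ j)} : Finset (ZMod (2 ^ k + 1))) := by
    rw [Finset.disjoint_right]
    intro x hx
    simp only [Finset.mem_insert, Finset.mem_singleton] at hx
    rcases hx with rfl | rfl | rfl | rfl <;> assumption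
  have hle := Finset.card_le_univ (A ∪ {(2 : ZMod (2 ^ k + 1)) ^ i, -(2 ^ i),
    (u : ZMod (2 ^ k + 1)) * 2 ^ j, -((u : ZMod (2 ^ k + 1)) * 2 ^ j)})
  rw [Finset.card_union_of_disjoint hdisj, hcard, ZMod.card] at hle
  omega

/-- For every `k ≥ 4` and `m = 2 ^ k - 2` or `m = 2 ^ k - 1`, the least dissociativity dimension
of an `m`-element subset of the cyclic group of order `2 ^ k + 1` is `k`, one more than the
conjectured value. -/
theorem result (k m : ℕ) (hk : 4 ≤ k) (hm : m = 2 ^ k - 2 ∨ m = 2 ^ k - 1) :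
    dimGroup (ZMod (2 ^ k + 1)) m = k ∧ Nat.log 2 m = k - 1 := by
  classical
  have h7 : 2 ^ 4 ≤ 2 ^ k := Nat.pow_le_pow_right (by norm_num) hk
  constructor
  · have hdim : ∀ A : Finset (ZMod (2 ^ k + 1)), A.card = m → dimSet A = k := by
      intro A hA
      apply le_antisymm
      · unfold dimSet
        apply Finset.sup_le
        intro B hB
        rw [Finset.mem_filter] at hB
        have h1 := two_pow_le hB.2
        rw [ZMod.card] at h1
        by_contra h2
        push Not at h2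
        have h3 : 2 ^ (k + 1) ≤ 2 ^ B.card := Nat.pow_le_pow_right (by norm_num) h2
        rw [pow_succ] at h3
        omega
      · exact lower hk A (by omega)
    have hset : {k' | ∃ A : Finset (ZMod (2 ^ k + 1)), A.card = m ∧ dimSet A = k'} = {k} := by
      ext k'
      simp only [Set.mem_ofPred_eq, Set.mem_singleton_iff]
      constructor
      · rintro ⟨A, hA, rfl⟩
        exact hdim A hA
      · rintro rfl
        obtain ⟨A, -, hA⟩ := Finset.exists_subset_card_eq
          (s := (Finset.univ : Finset (ZMod (2 ^ k' + 1)))) (n := m) (by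
            rw [Finset.card_univ, ZMod.card]; omega)
        exact ⟨A, hA, hdim A hA⟩
    unfold dimGroup
    rw [hset]
    exact csInf_singleton k
  · rw [Nat.log_eq_iff (by omega)]
    have h8 : 2 ^ k = 2 ^ (k - 1) * 2 := by rw [← pow_succ]; congr 1; omega
    have h9 : k - 1 + 1 = k := by omega
    rw [h9]
    omega

end Pool.Agent.Results.MP_fd91d0_co.FermatModuli
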